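import Pool.Agent.R934.LR.Graph
import Pool.Agent.TH815.LS5

/-!
Chromatic numbers, omitted subgraphs, and the graph form of the log-rank conjecture.
-/

set_option autoImplicit false

namespace Pool.Agent.R934.LR

open Finset Module Pool.TH815.LS

theorem graph_color {V : Type} [Fintype V] [DecidableEq V] (G : SimpleGraph V)
    [DecidableRel G.Adj] (r t R : ℕ) (hr1 : 1 ≤ r) (ht : 1 ≤ t) (hR : 1 ≤ R)
    (hr : (G.adjMatrix ℝ).rank ≤ r)
    (h : ∀ A : Finset V, A.card = R → ∃ S ⊆ A, Stab G S ∧ (t + 1) * r ≤ t * S.card) :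
    G.Colorable ((2 * R) ^ (t + 1) * (r + 1)) := by
  classical
  obtain ⟨rep, hrc, hrep⟩ := exists_rep G r hr
  have hK : 1 ≤ (2 * R) ^ (t + 1) := Nat.one_le_pow _ _ (by omega)
  have hlarge : ∀ W : Finset V, ∃ I ⊆ W, Indep G I ∧ W.card ≤ (2 * R) ^ (t + 1) * I.card :=
    fun W => graph_amp G r t R hr1 ht hr W (fun A _ hA => h A hA)
  obtain ⟨f, hf1, hf2⟩ := colOn_of_large G _ hK hlarge (r + 1) (univ.image rep) (by
    refine lt_of_le_of_lt hrc ?_
    exact Nat.pow_lt_pow_right (by norm_num) (by omega))
  refine ⟨SimpleGraph.Coloring.mk (fun v => (⟨f (rep v), ?_⟩ :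
    Fin ((2 * R) ^ (t + 1) * (r + 1)))) ?_⟩
  · exact hf1 (rep v) (mem_image_of_mem _ (mem_univ _))
  · intro u v huv heq
    rw [Fin.mk.injEq] at heq
    exact hf2 (rep u) (mem_image_of_mem _ (mem_univ _)) (rep v)
      (mem_image_of_mem _ (mem_univ _)) (hrep u v huv) heq

/-- A clique with at least two vertices has at most `rank` vertices. -/
theorem clique_le {V : Type} [Fintype V] [DecidableEq V] (G : SimpleGraph V)
    [DecidableRel G.Adj] (S : Finset V) (hS : G.IsClique (S : Set V)) (h2 : 2 ≤ S.card) :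
    S.card ≤ (G.adjMatrix ℝ).rank := by
  classical
  have hli : LinearIndependent ℝ (fun i : S => (G.adjMatrix ℝ).row (i : V)) := by
    rw [Fintype.linearIndependent_iff]
    intro c hc
    have h1 : ∀ j : S, ∑ i : S, c i = c j := by
      intro j
      have h3 := congrFun hc (j : V)
      simp only [Finset.sum_apply, Pi.smul_apply, smul_eq_mul, Pi.zero_apply] at h3
      have h4 : ∀ i : S, c i * (G.adjMatrix ℝ).row (i : V) (j : V) =
          c i - if i = j then c i else 0 := by
        intro i
        by_cases hij : i = j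
        · subst hij
          simp [Matrix.row]
        · have : G.Adj (i : V) (j : V) := hS i.2 j.2 (fun h => hij (Subtype.ext h))
          simp [Matrix.row, SimpleGraph.adjMatrix_apply, this, hij]
      rw [sum_congr rfl (fun i _ => h4 i), sum_sub_distrib, sum_ite_eq' univ j] at h3
      simp only [mem_univ, if_true] at h3
      linarith
    have h5 : ∑ i : S, c i = (S.card : ℝ) * ∑ i : S, c i := by
      conv_lhs => rw [sum_congr rfl (fun i _ => (h1 i).symm)]
      rw [sum_const, nsmul_eq_mul]
      simp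
    have h6 : (2 : ℝ) ≤ S.card := by exact_mod_cast h2
    have h7 : ∑ i : S, c i = 0 := by
      by_contra hne
      have : (S.card : ℝ) = 1 := by
        have := mul_right_cancel₀ hne (show (1 : ℝ) * ∑ i : S, c i = S.card * ∑ i : S, c i by
          rw [one_mul]; exact h5)
        exact this.symm
      linarith
    intro i
    rw [← h1 i, h7]
  have h8 := finrank_span_eq_card hli
  rw [Fintype.card_coe] at h8
  rw [← h8, Matrix.rank_eq_finrank_span_row]
  have : FiniteDimensional ℝ (Submodule.span ℝ (Set.range (G.adjMatrix ℝ).row)) :=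
    FiniteDimensional.span_of_finite ℝ (Set.finite_range _)
  refine Submodule.finrank_mono (Submodule.span_mono ?_)
  rintro _ ⟨u, rfl⟩
  exact ⟨u, rfl⟩

/-- The rank over the reals of the adjacency matrix of `G`. -/
noncomputable def rk {V : Type} [Fintype V] (G : SimpleGraph V) : ℕ := by
  classical exact (G.adjMatrix ℝ).rank

theorem rk_eq {V : Type} [Fintype V] [DecidableEq V] (G : SimpleGraph V) [DecidableRel G.Adj] :
    rk G = (G.adjMatrix ℝ).rank := by
  unfold rk
  congr

theorem two_le_rk {V : Type} [Fintype V] (G : SimpleGraph V) (u v : V) (huv : G.Adj u v) :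
    2 ≤ rk G := by
  classical
  have h1 := clique_le G {u, v} (by
    rw [coe_pair, SimpleGraph.isClique_pair]
    intro _
    exact huv) (by rw [card_pair huv.ne])
  rw [card_pair huv.ne] at h1
  rw [rk_eq]
  exact h1

theorem rk_comap {V U : Type} [Fintype V] [Fintype U] (G : SimpleGraph V) (u : U → V) (r : ℕ)
    (hr : rk G ≤ r) : rk (G.comap u) ≤ r := by
  classical
  rw [rk_eq] at hr ⊢
  exact rank_comap G u r hr

/-- The Erdős–Hajnal property: the graphs without induced `H` have cliques or stable sets of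
polynomial size. -/
def ErdosHajnal {ι : Type} (H : SimpleGraph ι) : Prop :=
  ∃ ε : ℝ, 0 < ε ∧ ∀ (V : Type) [Fintype V] (G : SimpleGraph V), IsEmpty (H ↪g G) →
    ∃ S : Finset V, (G.IsClique (S : Set V) ∨ Stab G S) ∧ (Fintype.card V : ℝ) ^ ε ≤ S.card

/-- `χ(G) ≤ rank(G) ^ c` for all finite graphs `G` with at least one edge that have no induced
subgraph isomorphic to `H`. -/
def Tame {ι : Type} (H : SimpleGraph ι) : Prop :=
  ∃ c : ℕ, ∀ (V : Type) [Fintype V] (G : SimpleGraph V), G ≠ ⊥ → IsEmpty (H ↪g G) →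
    G.chromaticNumber ≤ (rk G ^ c : ℕ)

/-- homogeneous sets in all samples -/
theorem homog_color {V : Type} [Fintype V] (G : SimpleGraph V) (r R : ℕ) (hr1 : 1 ≤ r)
    (hR : 1 ≤ R) (hr : rk G ≤ r)
    (h : ∀ A : Finset V, A.card = R → ∃ S ⊆ A, (G.IsClique (S : Set V) ∨ Stab G S) ∧
      2 * r ≤ S.card) :
    G.Colorable ((2 * R) ^ 2 * (r + 1)) := by
  classical
  rw [rk_eq] at hr
  refine graph_color G r 1 R hr1 le_rfl hR hr fun A hA => ?_
  obtain ⟨S, hSA, hS, hc⟩ := h A hA
  refine ⟨S, hSA, ?_, by omega⟩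
  rcases hS with hS | hS
  · exfalso
    have := clique_le G S hS (by omega)
    omega
  · exact hS

theorem tame_of_eh {ι : Type} (H : SimpleGraph ι) (h : ErdosHajnal H) : Tame H := by
  classical
  obtain ⟨ε, hε, h⟩ := h
  obtain ⟨N, hN⟩ := exists_nat_ge (1 / ε)
  have hN1 : (1 : ℝ) ≤ N * ε := by
    rw [div_le_iff₀ hε] at hN
    exact hN
  refine ⟨4 * N + 6, ?_⟩
  intro V _ G hG hemp
  have hedge : ∃ u v, G.Adj u v := by
    by_contra hcon
    push Not at hcon
    apply hG
    ext u v
    simp [hcon u v]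
  obtain ⟨u, v, huv⟩ := hedge
  have hr2 := two_le_rk G u v huv
  set r := rk G with hr
  have hcol := homog_color G r ((2 * r) ^ N) (by omega) (Nat.one_le_pow _ _ (by omega)) le_rfl (by
    intro A hA
    obtain ⟨S, hS, hc⟩ := h A (G.comap (fun w : A => (w : V))) ⟨fun f =>
        hemp.false (f.trans (SimpleGraph.Embedding.comap (Function.Embedding.subtype _) G))⟩
    refine ⟨S.map (Function.Embedding.subtype _), ?_, ?_, ?_⟩
    · intro x hx
      rw [mem_map] at hx
      obtain ⟨y, _, rfl⟩ := hx
      exact y.2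
    · rcases hS with hS | hS
      · left
        intro a ha b hb hab
        rw [mem_coe, mem_map] at ha hb
        obtain ⟨a', ha', rfl⟩ := ha
        obtain ⟨b', hb', rfl⟩ := hb
        exact hS ha' hb' (fun h => hab (by rw [h]))
      · right
        intro a ha b hb
        rw [mem_map] at ha hb
        obtain ⟨a', ha', rfl⟩ := ha
        obtain ⟨b', hb', rfl⟩ := hb
        exact hS a' ha' b' hb'
    · rw [card_map]
      rw [Fintype.card_coe, hA] at hc
      have h1 : (1 : ℝ) ≤ ((2 * r : ℕ) : ℝ) := by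
        have : 1 ≤ 2 * r := by omega
        exact_mod_cast this
      have h2 : ((2 * r : ℕ) : ℝ) ≤ (((2 * r) ^ N : ℕ) : ℝ) ^ ε := by
        rw [Nat.cast_pow, ← Real.rpow_natCast, ← Real.rpow_mul (by positivity)]
        calc ((2 * r : ℕ) : ℝ) = ((2 * r : ℕ) : ℝ) ^ (1 : ℝ) := (Real.rpow_one _).symm
          _ ≤ _ := Real.rpow_le_rpow_of_exponent_le h1 hN1
      exact_mod_cast h2.trans hc)
  refine hcol.chromaticNumber_le.trans ?_
  have hb : (2 * (2 * r) ^ N) ^ 2 * (r + 1) ≤ r ^ (4 * N + 6) := by
    have h1 : 2 * r ≤ r ^ 2 := by nlinarith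
    have h2 : (2 * r) ^ N ≤ (r ^ 2) ^ N := Nat.pow_le_pow_left h1 N
    have h3 : 2 * (2 * r) ^ N ≤ r ^ (2 * N + 1) := by
      calc 2 * (2 * r) ^ N ≤ r * (r ^ 2) ^ N := Nat.mul_le_mul hr2 h2
        _ = r ^ (2 * N + 1) := by rw [← pow_mul, pow_succ]; ring
    have h4 : r + 1 ≤ r ^ 4 := by
      have h5 : 1 ≤ r ^ 2 := Nat.one_le_pow _ _ (by omega)
      have h6 : r + 1 ≤ r ^ 2 := by nlinarith
      calc r + 1 ≤ r ^ 2 * 1 := by omega
        _ ≤ r ^ 2 * r ^ 2 := Nat.mul_le_mul_left _ h5
        _ = r ^ 4 := by ring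
    calc (2 * (2 * r) ^ N) ^ 2 * (r + 1) ≤ (r ^ (2 * N + 1)) ^ 2 * r ^ 4 :=
          Nat.mul_le_mul (Nat.pow_le_pow_left h3 2) h4
      _ = r ^ (4 * N + 6) := by rw [← pow_mul, ← pow_add]; congr 1; ring
  exact_mod_cast hb

/-! ### Reduction to connected twin-free graphs -/

/-- If all connected twin-free graphs with at least one edge and rank at most `r` have at most `Q`
colours, then so have all graphs of rank at most `r`. -/
theorem color_all (r Q : ℕ) (hQ : 1 ≤ Q)
    (h : ∀ (n : ℕ) (G : SimpleGraph (Fin n)), G.Connected →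
      (∀ u v : Fin n, u ≠ v → ¬ G.Adj u v → G.neighborSet u ≠ G.neighborSet v) →
      1 < rk G → rk G ≤ r → G.Colorable Q)
    {V : Type} [Fintype V] [DecidableEq V] (G : SimpleGraph V) (hr : rk G ≤ r) :
    G.Colorable Q := by
  classical
  suffices H : ∀ W : Finset V, ColOn G W Q by
    obtain ⟨f, hf1, hf2⟩ := H univ
    exact ⟨SimpleGraph.Coloring.mk (fun v => (⟨f v, hf1 v (mem_univ _)⟩ : Fin Q))
      (fun {u v} huv heq => by
        rw [Fin.mk.injEq] at heq
        exact hf2 u (mem_univ _) v (mem_univ _) huv heq)⟩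
  intro W
  induction W using Finset.strongInduction with
  | H W ih =>
    by_contra hcon
    -- an edge
    have hedge : ∃ u ∈ W, ∃ v ∈ W, G.Adj u v := by
      by_contra hne
      push Not at hne
      exact hcon ⟨fun _ => 0, fun _ _ => hQ, fun u hu v hv huv => absurd huv (hne u hu v hv)⟩
    let e : Fin W.card ≃ W := W.equivFin.symm
    let G' : SimpleGraph (Fin W.card) := G.comap (fun i => ((e i : W) : V))
    have hadj : ∀ i j, G'.Adj i j ↔ G.Adj ((e i : W) : V) ((e j : W) : V) := fun i j => Iff.rfl
    have hes : ∀ (w : V) (hw : w ∈ W), ((e (e.symm ⟨w, hw⟩) : W) : V) = w := by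
      intro w hw
      rw [Equiv.apply_symm_apply]
    have hcol : G'.Colorable Q := by
      apply h
      · -- connected
        obtain ⟨u0, hu0, v0, hv0, huv0⟩ := hedge
        have : Nonempty (Fin W.card) := ⟨e.symm ⟨u0, hu0⟩⟩
        rw [SimpleGraph.connected_iff]
        refine ⟨?_, this⟩
        intro a b
        by_contra hab
        set W1 := W.filter (fun w => ∃ hw : w ∈ W, G'.Reachable a (e.symm ⟨w, hw⟩)) with hW1
        have hbW1 : ((e b : W) : V) ∉ W1 := by
          rw [hW1, mem_filter]
          rintro ⟨_, hw, hreach⟩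
          apply hab
          have e1 : (⟨((e b : W) : V), hw⟩ : W) = e b := Subtype.ext rfl
          rw [e1, Equiv.symm_apply_apply] at hreach
          exact hreach
        have haW1 : ((e a : W) : V) ∈ W1 := by
          rw [hW1, mem_filter]
          refine ⟨(e a).2, (e a).2, ?_⟩
          have e1 : (⟨((e a : W) : V), (e a).2⟩ : W) = e a := Subtype.ext rfl
          rw [e1, Equiv.symm_apply_apply]
        have h1 : ColOn G W1 Q := ih W1 (by
          rw [Finset.ssubset_iff_of_subset (filter_subset _ _)]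
          exact ⟨_, (e b).2, hbW1⟩)
        have h2 : ColOn G (W \ W1) Q := ih (W \ W1) (by
          rw [Finset.ssubset_iff_of_subset sdiff_subset]
          exact ⟨_, (e a).2, fun h => (mem_sdiff.mp h).2 haW1⟩)
        obtain ⟨f1, hf1, hf1'⟩ := h1
        obtain ⟨f2, hf2, hf2'⟩ := h2
        have hcross : ∀ u ∈ W1, ∀ v ∈ W, G.Adj u v → v ∈ W1 := by
          intro u hu v hv huv
          rw [hW1, mem_filter] at hu ⊢
          obtain ⟨_, huW, hreach⟩ := hu
          refine ⟨hv, hv, hreach.trans (SimpleGraph.Adj.reachable ?_)⟩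
          rw [hadj, hes, hes]
          exact huv
        apply hcon
        refine ⟨fun w => if w ∈ W1 then f1 w else f2 w, ?_, ?_⟩
        · intro v hv
          by_cases hv1 : v ∈ W1
          · simp only [hv1, if_true]
            exact hf1 v hv1
          · simp only [hv1, if_false]
            exact hf2 v (mem_sdiff.mpr ⟨hv, hv1⟩)
        · intro u hu v hv huv
          by_cases hu1 : u ∈ W1
          · have hv1 := hcross u hu1 v hv huv
            simp only [hu1, hv1, if_true]
            exact hf1' u hu1 v hv1 huv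
          · have hv1 : v ∉ W1 := fun hv1 => hu1 (hcross v hv1 u hu huv.symm)
            simp only [hu1, hv1, if_false]
            exact hf2' u (mem_sdiff.mpr ⟨hu, hu1⟩) v (mem_sdiff.mpr ⟨hv, hv1⟩) huv
      · -- twin-free
        intro i j hij hnadj hnb
        obtain ⟨f, hf1, hf2⟩ := ih (W.erase ((e i : W) : V)) (erase_ssubset (e i).2)
        have hne : ((e i : W) : V) ≠ ((e j : W) : V) := fun h => hij (e.injective (Subtype.ext h))
        apply hcon
        refine ⟨fun w => if w = ((e i : W) : V) then f ((e j : W) : V) else f w, ?_, ?_⟩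
        · intro v hv
          by_cases hvi : v = ((e i : W) : V)
          · simp only [hvi, if_true]
            exact hf1 _ (mem_erase.mpr ⟨hne.symm, (e j).2⟩)
          · simp only [hvi, if_false]
            exact hf1 _ (mem_erase.mpr ⟨hvi, hv⟩)
        · have key : ∀ v ∈ W, v ≠ ((e i : W) : V) → G.Adj ((e i : W) : V) v →
              f ((e j : W) : V) ≠ f v := by
            intro v hv hvi huv
            have h3 : e.symm ⟨v, hv⟩ ∈ G'.neighborSet i := by
              rw [SimpleGraph.mem_neighborSet, hadj, hes]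
              exact huv
            rw [hnb, SimpleGraph.mem_neighborSet, hadj, hes] at h3
            exact hf2 _ (mem_erase.mpr ⟨hne.symm, (e j).2⟩) _ (mem_erase.mpr ⟨hvi, hv⟩) h3
          intro u hu v hv huv
          by_cases hui : u = ((e i : W) : V)
          · have hvi : v ≠ ((e i : W) : V) := by
              intro hvi
              rw [hui, hvi] at huv
              exact G.loopless.irrefl _ huv
            simp only [hui, hvi, if_true, if_false]
            rw [hui] at huv
            exact key v hv hvi huv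
          · by_cases hvi : v = ((e i : W) : V)
            · simp only [hui, hvi, if_true, if_false]
              rw [hvi] at huv
              exact (key u hu hui huv.symm).symm
            · simp only [hui, hvi, if_false]
              exact hf2 _ (mem_erase.mpr ⟨hui, hu⟩) _ (mem_erase.mpr ⟨hvi, hv⟩) huv
      · obtain ⟨u, hu, v, hv, huv⟩ := hedge
        exact two_le_rk G' (e.symm ⟨u, hu⟩) (e.symm ⟨v, hv⟩) (by
          rw [hadj, hes, hes]
          exact huv)
      · exact rk_comap G _ r hr
    obtain ⟨C⟩ := hcol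
    apply hcon
    refine ⟨fun w => if hw : w ∈ W then ((C (e.symm ⟨w, hw⟩) : Fin Q) : ℕ) else 0, ?_, ?_⟩
    · intro v hv
      simp only [hv, dif_pos]
      exact (C _).2
    · intro u hu v hv huv heq
      simp only [hu, hv, dif_pos] at heq
      have h4 : G'.Adj (e.symm ⟨u, hu⟩) (e.symm ⟨v, hv⟩) := by
        rw [hadj, hes, hes]
        exact huv
      exact C.valid h4 (Fin.ext heq)

end Pool.Agent.R934.LR
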