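import Mathlib

/-!
Counting sets of rows with a small span.
-/

set_option autoImplicit false

namespace Pool.Agent.R934.LR

open Finset Module

theorem span_insert_finrank {α K M : Type*} [DecidableEq α] [Field K] [AddCommGroup M] [Module K M]
    (row : α → M) (P : Finset α) (y : α) (hy : row y ∉ Submodule.span K (row '' (P : Set α))) :
    finrank K (Submodule.span K (row '' (P : Set α))) + 1 ≤
      finrank K (Submodule.span K (row '' ((insert y P : Finset α) : Set α))) := by
  have hfin : (row '' ((insert y P : Finset α) : Set α)).Finite :=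
    (Finset.finite_toSet _).image _
  have : FiniteDimensional K (Submodule.span K (row '' ((insert y P : Finset α) : Set α))) :=
    FiniteDimensional.span_of_finite K hfin
  have hlt : Submodule.span K (row '' (P : Set α)) <
      Submodule.span K (row '' ((insert y P : Finset α) : Set α)) := by
    refine lt_of_le_of_ne (Submodule.span_mono (Set.image_mono ?_)) ?_
    · intro z hz
      simp only [coe_insert, Set.mem_insert_iff]
      exact Or.inr hz
    · intro heq
      apply hy
      rw [heq]
      exact Submodule.subset_span ⟨y, by simp, rfl⟩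
  exact Submodule.finrank_lt_finrank_of_lt hlt

theorem span_insert_eq {α K M : Type*} [DecidableEq α] [Field K] [AddCommGroup M] [Module K M]
    (row : α → M) (P : Finset α) (y : α) (hy : row y ∈ Submodule.span K (row '' (P : Set α))) :
    Submodule.span K (row '' ((insert y P : Finset α) : Set α)) =
      Submodule.span K (row '' (P : Set α)) := by
  rw [coe_insert, Set.image_insert_eq]
  exact Submodule.span_insert_eq_span hy

/-- the weight of the sets of size `k` -/
theorem count_weight {α K M : Type*} [DecidableEq α] [Field K] [AddCommGroup M] [Module K M]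
    (row : α → M) (A : Finset α) (τ : Finset α → ℝ) (h0 : ∀ P, 0 ≤ τ P) (h1 : ∀ P, τ P ≤ 1)
    (hmono : ∀ P Q : Finset α, P ⊆ Q → τ Q ≤ τ P) (r : ℕ)
    (hr : finrank K (Submodule.span K (row '' (A : Set α))) ≤ r)
    (m x : ℝ) (hm : 0 ≤ m) (hx : 1 ≤ x) (hA : (A.card : ℝ) ≤ m * x)
    (hU : ∀ P ⊆ A, ∀ U ⊆ A, (∀ y ∈ U, 0 < τ (insert y P) ∧
      row y ∈ Submodule.span K (row '' (P : Set α))) → (U.card : ℝ) * τ P ≤ m) :
    ∀ (j : ℕ) (P : Finset α), P ⊆ A →
      (j.factorial : ℝ) * ∑ Q ∈ (A.powersetCard (P.card + j)).filter (fun Q => P ⊆ Q), τ Q ^ j ≤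
        (2 * m) ^ j * x ^ (r - finrank K (Submodule.span K (row '' (P : Set α)))) := by
  classical
  have hx0 : (0 : ℝ) ≤ x := by linarith
  have hfin : ∀ B : Finset α, FiniteDimensional K (Submodule.span K (row '' (B : Set α))) :=
    fun B => FiniteDimensional.span_of_finite K ((Finset.finite_toSet _).image _)
  intro j
  induction j with
  | zero =>
    intro P hP
    have e : (A.powersetCard (P.card + 0)).filter (fun Q => P ⊆ Q) ⊆ {P} := by
      intro Q hQ
      rw [mem_filter, mem_powersetCard] at hQ
      rw [mem_singleton]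
      exact (eq_of_subset_of_card_le hQ.2 (by omega)).symm
    simp only [Nat.factorial_zero, Nat.cast_one, pow_zero, sum_const, nsmul_eq_mul, mul_one,
      one_mul]
    have h2 : (((A.powersetCard (P.card + 0)).filter (fun Q => P ⊆ Q)).card : ℝ) ≤ 1 := by
      have := card_le_card e
      rw [card_singleton] at this
      exact_mod_cast this
    exact h2.trans (one_le_pow₀ hx)
  | succ j ih =>
    intro P hP
    set d := finrank K (Submodule.span K (row '' (P : Set α))) with hd
    set A' := (A \ P).filter (fun y => 0 < τ (insert y P)) with hA'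
    set F := (A.powersetCard (P.card + (j + 1))).filter (fun Q => P ⊆ Q) with hF
    set G : α → Finset (Finset α) := fun y =>
      (A.powersetCard ((insert y P).card + j)).filter (fun Q => insert y P ⊆ Q) with hG
    -- double counting
    have hdc : ((j + 1 : ℕ) : ℝ) * ∑ Q ∈ F, τ Q ^ (j + 1) ≤
        ∑ y ∈ A', ∑ Q ∈ G y, τ Q ^ (j + 1) := by
      have e1 : ∀ Q ∈ F, ((j + 1 : ℕ) : ℝ) * τ Q ^ (j + 1) ≤
          ∑ y ∈ A', if y ∈ Q then τ Q ^ (j + 1) else 0 := by
        intro Q hQ
        rw [hF, mem_filter, mem_powersetCard] at hQ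
        obtain ⟨⟨hQA, hQc⟩, hPQ⟩ := hQ
        by_cases hτ : τ Q = 0
        · rw [hτ]
          simp
        have hτ0 : 0 < τ Q := lt_of_le_of_ne (h0 Q) (Ne.symm hτ)
        rw [← sum_filter]
        rw [sum_const, nsmul_eq_mul]
        refine mul_le_mul_of_nonneg_right ?_ (pow_nonneg (h0 Q) _)
        have h3 : Q \ P ⊆ A'.filter (fun y => y ∈ Q) := by
          intro y hy
          rw [mem_sdiff] at hy
          rw [mem_filter, hA', mem_filter, mem_sdiff]
          refine ⟨⟨⟨hQA hy.1, hy.2⟩, lt_of_lt_of_le hτ0 (hmono _ _ ?_)⟩, hy.1⟩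
          exact insert_subset hy.1 hPQ
        have h4 : (Q \ P).card = j + 1 := by
          rw [card_sdiff_of_subset hPQ]
          omega
        have := card_le_card h3
        rw [h4] at this
        exact_mod_cast this
      rw [mul_sum]
      refine (sum_le_sum e1).trans ?_
      rw [sum_comm]
      refine sum_le_sum fun y hy => ?_
      rw [← sum_filter]
      refine sum_le_sum_of_subset_of_nonneg ?_ (fun Q _ _ => pow_nonneg (h0 Q) _)
      intro Q hQ
      rw [mem_filter, hF, mem_filter, mem_powersetCard] at hQ
      rw [hA', mem_filter, mem_sdiff] at hy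
      rw [hG]
      simp only
      rw [mem_filter, mem_powersetCard, card_insert_of_notMem hy.1.2]
      refine ⟨⟨hQ.1.1.1, by omega⟩, insert_subset hQ.2 hQ.1.2⟩
    have hstep : ∀ y ∈ A', (j.factorial : ℝ) * ∑ Q ∈ G y, τ Q ^ (j + 1) ≤
        τ P * ((2 * m) ^ j *
          x ^ (r - finrank K (Submodule.span K (row '' ((insert y P : Finset α) : Set α))))) := by
      intro y hy
      rw [hA', mem_filter, mem_sdiff] at hy
      have h5 := ih (insert y P) (insert_subset hy.1.1 hP)
      have h6 : ∑ Q ∈ G y, τ Q ^ (j + 1) ≤ τ P * ∑ Q ∈ G y, τ Q ^ j := by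
        rw [mul_sum]
        refine sum_le_sum fun Q hQ => ?_
        rw [pow_succ, mul_comm]
        refine mul_le_mul_of_nonneg_right (hmono _ _ ?_) (pow_nonneg (h0 Q) _)
        rw [hG] at hQ
        simp only at hQ
        rw [mem_filter] at hQ
        exact (subset_insert _ _).trans hQ.2
      calc (j.factorial : ℝ) * ∑ Q ∈ G y, τ Q ^ (j + 1)
          ≤ (j.factorial : ℝ) * (τ P * ∑ Q ∈ G y, τ Q ^ j) :=
            mul_le_mul_of_nonneg_left h6 (Nat.cast_nonneg _)
        _ = τ P * ((j.factorial : ℝ) * ∑ Q ∈ G y, τ Q ^ j) := by ring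
        _ ≤ _ := mul_le_mul_of_nonneg_left h5 (h0 P)
    -- split
    set U := A'.filter (fun y => row y ∈ Submodule.span K (row '' (P : Set α))) with hUdef
    have hUm : (U.card : ℝ) * τ P ≤ m := by
      refine hU P hP U ?_ ?_
      · intro y hy
        rw [hUdef, mem_filter, hA', mem_filter, mem_sdiff] at hy
        exact hy.1.1.1
      · intro y hy
        rw [hUdef, mem_filter, hA', mem_filter, mem_sdiff] at hy
        exact ⟨hy.1.2, hy.2⟩
    have hm2 : (0 : ℝ) ≤ (2 * m) ^ j := by positivity
    have hsumU : ∑ y ∈ U, τ P * ((2 * m) ^ j *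
        x ^ (r - finrank K (Submodule.span K (row '' ((insert y P : Finset α) : Set α))))) ≤
        m * ((2 * m) ^ j * x ^ (r - d)) := by
      have e : ∀ y ∈ U, τ P * ((2 * m) ^ j *
          x ^ (r - finrank K (Submodule.span K (row '' ((insert y P : Finset α) : Set α))))) =
          τ P * ((2 * m) ^ j * x ^ (r - d)) := by
        intro y hy
        rw [hUdef, mem_filter] at hy
        rw [span_insert_eq row P y hy.2]
      rw [sum_congr rfl e, sum_const, nsmul_eq_mul, ← mul_assoc]
      exact mul_le_mul_of_nonneg_right hUm (by positivity)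
    have hsumV : ∑ y ∈ A'.filter (fun y => ¬ row y ∈ Submodule.span K (row '' (P : Set α))),
        τ P * ((2 * m) ^ j *
        x ^ (r - finrank K (Submodule.span K (row '' ((insert y P : Finset α) : Set α))))) ≤
        m * ((2 * m) ^ j * x ^ (r - d)) := by
      by_cases hne : (A'.filter (fun y => ¬ row y ∈ Submodule.span K (row '' (P : Set α)))).Nonempty
      · have hdr : ∀ y ∈ A'.filter (fun y => ¬ row y ∈ Submodule.span K (row '' (P : Set α))),
            d + 1 ≤ finrank K (Submodule.span K (row '' ((insert y P : Finset α) : Set α))) ∧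
            finrank K (Submodule.span K (row '' ((insert y P : Finset α) : Set α))) ≤ r := by
          intro y hy
          rw [mem_filter, hA', mem_filter, mem_sdiff] at hy
          refine ⟨span_insert_finrank row P y hy.2, le_trans ?_ hr⟩
          have := hfin A
          refine Submodule.finrank_mono (Submodule.span_mono (Set.image_mono ?_))
          exact_mod_cast insert_subset hy.1.1.1 hP
        have hd1 : d + 1 ≤ r := by
          obtain ⟨y, hy⟩ := hne
          exact (hdr y hy).1.trans (hdr y hy).2
        have e : ∀ y ∈ A'.filter (fun y => ¬ row y ∈ Submodule.span K (row '' (P : Set α))),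
            τ P * ((2 * m) ^ j *
            x ^ (r - finrank K (Submodule.span K (row '' ((insert y P : Finset α) : Set α))))) ≤
            (2 * m) ^ j * x ^ (r - d - 1) := by
          intro y hy
          have h7 : x ^ (r - finrank K (Submodule.span K
              (row '' ((insert y P : Finset α) : Set α)))) ≤ x ^ (r - d - 1) :=
            pow_le_pow_right₀ hx (by have := hdr y hy; omega)
          calc τ P * ((2 * m) ^ j * x ^ (r - finrank K (Submodule.span K
              (row '' ((insert y P : Finset α) : Set α)))))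
              ≤ 1 * ((2 * m) ^ j * x ^ (r - finrank K (Submodule.span K
              (row '' ((insert y P : Finset α) : Set α))))) :=
                mul_le_mul_of_nonneg_right (h1 P) (by positivity)
            _ ≤ 1 * ((2 * m) ^ j * x ^ (r - d - 1)) := by
                rw [one_mul, one_mul]
                exact mul_le_mul_of_nonneg_left h7 hm2
            _ = _ := one_mul _
        refine (sum_le_sum e).trans ?_
        rw [sum_const, nsmul_eq_mul]
        have h8 : ((A'.filter (fun y => ¬ row y ∈ Submodule.span K (row '' (P : Set α)))).card : ℝ)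
            ≤ m * x := by
          refine le_trans ?_ hA
          have : A'.filter (fun y => ¬ row y ∈ Submodule.span K (row '' (P : Set α))) ⊆ A := by
            intro y hy
            rw [mem_filter, hA', mem_filter, mem_sdiff] at hy
            exact hy.1.1.1
          exact_mod_cast card_le_card this
        refine (mul_le_mul_of_nonneg_right h8 (by positivity)).trans (le_of_eq ?_)
        have e2 : r - d = r - d - 1 + 1 := by omega
        rw [e2, pow_succ]
        simp only [Nat.add_sub_cancel]
        ring
      · rw [not_nonempty_iff_eq_empty] at hne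
        rw [hne, sum_empty]
        positivity
    calc ((j + 1).factorial : ℝ) * ∑ Q ∈ F, τ Q ^ (j + 1)
        = (j.factorial : ℝ) * (((j + 1 : ℕ) : ℝ) * ∑ Q ∈ F, τ Q ^ (j + 1)) := by
          rw [Nat.factorial_succ]
          push_cast
          ring
      _ ≤ (j.factorial : ℝ) * ∑ y ∈ A', ∑ Q ∈ G y, τ Q ^ (j + 1) :=
          mul_le_mul_of_nonneg_left hdc (Nat.cast_nonneg _)
      _ = ∑ y ∈ A', (j.factorial : ℝ) * ∑ Q ∈ G y, τ Q ^ (j + 1) := by rw [mul_sum]
      _ ≤ ∑ y ∈ A', τ P * ((2 * m) ^ j *
          x ^ (r - finrank K (Submodule.span K (row '' ((insert y P : Finset α) : Set α))))) :=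
          sum_le_sum hstep
      _ = _ := (sum_filter_add_sum_filter_not A'
          (fun y => row y ∈ Submodule.span K (row '' (P : Set α))) _).symm
      _ ≤ m * ((2 * m) ^ j * x ^ (r - d)) + m * ((2 * m) ^ j * x ^ (r - d)) :=
          add_le_add hsumU hsumV
      _ = (2 * m) ^ (j + 1) * x ^ (r - d) := by rw [pow_succ]; ring

/-- **Counting with weights.** -/
theorem count_weight_k {α K M : Type*} [DecidableEq α] [Field K] [AddCommGroup M] [Module K M]
    (row : α → M) (A : Finset α) (τ : Finset α → ℝ) (h0 : ∀ P, 0 ≤ τ P) (h1 : ∀ P, τ P ≤ 1)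
    (hmono : ∀ P Q : Finset α, P ⊆ Q → τ Q ≤ τ P) (r : ℕ)
    (hr : finrank K (Submodule.span K (row '' (A : Set α))) ≤ r)
    (m x : ℝ) (hm : 0 ≤ m) (hx : 1 ≤ x) (hA : (A.card : ℝ) ≤ m * x)
    (hU : ∀ P ⊆ A, ∀ U ⊆ A, (∀ y ∈ U, 0 < τ (insert y P) ∧
      row y ∈ Submodule.span K (row '' (P : Set α))) → (U.card : ℝ) * τ P ≤ m) (k : ℕ) :
    (k.factorial : ℝ) * ∑ Q ∈ A.powersetCard k, τ Q ^ k ≤ (2 * m) ^ k * x ^ r := by
  have h := count_weight row A τ h0 h1 hmono r hr m x hm hx hA hU k ∅ (empty_subset _)
  have e : (A.powersetCard ((∅ : Finset α).card + k)).filter (fun Q => ∅ ⊆ Q) =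
      A.powersetCard k := by
    rw [card_empty, Nat.zero_add]
    exact filter_true_of_mem fun Q _ => empty_subset _
  have e2 : finrank K (Submodule.span K (row '' ((∅ : Finset α) : Set α))) = 0 := by
    rw [coe_empty, Set.image_empty, Submodule.span_empty]
    exact finrank_bot K M
  rw [e, e2, Nat.sub_zero] at h
  exact h

/-! ### Binomial coefficients -/

/-- `n (n - 1) ⋯ (n - k + 1) / n ^ k` is increasing in `n`. -/
theorem desc_mono (R n k : ℕ) (h : R ≤ n) : R.descFactorial k * n ^ k ≤ n.descFactorial k * R ^ k := by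
  induction k with
  | zero => simp
  | succ k ih =>
    rw [Nat.descFactorial_succ, Nat.descFactorial_succ, pow_succ, pow_succ]
    have h1 : (R - k) * n ≤ (n - k) * R := by
      rw [Nat.sub_mul, Nat.sub_mul, mul_comm n R]
      have : k * R ≤ k * n := Nat.mul_le_mul_left _ h
      omega
    calc (R - k) * R.descFactorial k * (n ^ k * n)
        = (R.descFactorial k * n ^ k) * ((R - k) * n) := by ring
      _ ≤ (n.descFactorial k * R ^ k) * ((n - k) * R) := Nat.mul_le_mul ih h1
      _ = _ := by ring

theorem choose_mono' (R n k : ℕ) (h : R ≤ n) : R.choose k * n ^ k ≤ n.choose k * R ^ k := by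
  have h1 := desc_mono R n k h
  rw [Nat.descFactorial_eq_factorial_mul_choose, Nat.descFactorial_eq_factorial_mul_choose] at h1
  have h2 : k.factorial * (R.choose k * n ^ k) ≤ k.factorial * (n.choose k * R ^ k) := by
    calc _ = k.factorial * R.choose k * n ^ k := by ring
      _ ≤ _ := h1
      _ = _ := by ring
  exact Nat.le_of_mul_le_mul_left h2 (Nat.factorial_pos k)

/-- the number of the `R`-sets that contain a given set -/
theorem card_above {α : Type*} [DecidableEq α] (A P : Finset α) (hP : P ⊆ A) (R : ℕ) :
    ((A.powersetCard R).filter (fun Q => P ⊆ Q)).card ≤ (A.card - P.card).choose (R - P.card) := by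
  rw [← card_sdiff_of_subset hP, ← card_powersetCard]
  refine card_le_card_of_injOn (fun Q => Q \ P) ?_ ?_
  · intro Q hQ
    rw [mem_coe, mem_filter, mem_powersetCard] at hQ
    rw [mem_coe, mem_powersetCard]
    exact ⟨sdiff_subset_sdiff hQ.1.1 (Subset.refl _), by rw [card_sdiff_of_subset hQ.2, hQ.1.2]⟩
  · intro Q hQ Q' hQ' h
    rw [mem_coe, mem_filter] at hQ hQ'
    have h' : Q \ P = Q' \ P := h
    rw [← sdiff_union_of_subset hQ.2, h', sdiff_union_of_subset hQ'.2]

end Pool.Agent.R934.LR
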