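import Pool.Agent.R934.LR.Count

/-!
Graphs of small rank: samples with stable sets of twice the rank.
-/

set_option autoImplicit false

namespace Pool.Agent.R934.LR

open Finset Module

/-- stable sets of vertices -/
def Stab {V : Type*} (G : SimpleGraph V) (S : Finset V) : Prop := ∀ u ∈ S, ∀ v ∈ S, ¬ G.Adj u v

theorem Stab.sub {V : Type*} {G : SimpleGraph V} {S T : Finset V} (h : Stab G S) (hT : T ⊆ S) :
    Stab G T := fun u hu v hv => h u (hT hu) v (hT hv)

open Classical in
/-- The number of the stable sets of size `k` in a set of vertices. -/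
theorem stable_count {V : Type} [Fintype V] [DecidableEq V] (G : SimpleGraph V)
    [DecidableRel G.Adj] (r : ℕ) (hr : (G.adjMatrix ℝ).rank ≤ r) (W : Finset V) (m : ℕ)
    (hm : ∀ S ⊆ W, Stab G S → S.card ≤ m) (hm0 : 0 < m) (hmW : m ≤ W.card) (k : ℕ) :
    (k.factorial : ℝ) * ((W.powersetCard k).filter (fun Q => Stab G Q)).card ≤
      (2 * (m : ℝ)) ^ k * ((W.card : ℝ) / m) ^ r := by
  have hm' : (0 : ℝ) < m := by exact_mod_cast hm0
  have hspan : finrank ℝ (Submodule.span ℝ ((fun u : V => (G.adjMatrix ℝ).row u) ''
      (W : Set V))) ≤ r := by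
    refine le_trans ?_ hr
    rw [Matrix.rank_eq_finrank_span_row]
    have : FiniteDimensional ℝ (Submodule.span ℝ (Set.range (G.adjMatrix ℝ).row)) :=
      FiniteDimensional.span_of_finite ℝ (Set.finite_range _)
    refine Submodule.finrank_mono (Submodule.span_mono ?_)
    rintro _ ⟨u, _, rfl⟩
    exact ⟨u, rfl⟩
  have h := count_weight_k (K := ℝ) (fun u : V => (G.adjMatrix ℝ).row u) W
    (fun P => if Stab G P then (1 : ℝ) else 0)
    (fun P => by by_cases h : Stab G P <;> simp [h])
    (fun P => by by_cases h : Stab G P <;> simp [h])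
    (fun P Q hPQ => by
      by_cases hQ : Stab G Q
      · simp [hQ, hQ.sub hPQ]
      · simp only [hQ, if_false]
        by_cases h : Stab G P <;> simp [h])
    r hspan (m : ℝ) ((W.card : ℝ) / m) hm'.le
    (by
      rw [le_div_iff₀ hm', one_mul]
      exact_mod_cast hmW)
    (by
      rw [mul_div_cancel₀ _ hm'.ne'])
    (by
      intro P hP U hU hy
      have hst : Stab G U := by
        intro y hyU z hzU hadj
        have h1 : ∀ f ∈ Submodule.span ℝ ((fun u : V => (G.adjMatrix ℝ).row u) '' (P : Set V)),
            f z = 0 := by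
          intro f hf
          have h2 : Submodule.span ℝ ((fun u : V => (G.adjMatrix ℝ).row u) '' (P : Set V)) ≤
              LinearMap.ker (LinearMap.proj z : (V → ℝ) →ₗ[ℝ] ℝ) := by
            rw [Submodule.span_le]
            rintro _ ⟨p, hp, rfl⟩
            have h3 : Stab G (insert z P) := by
              by_contra hcon
              have := (hy z hzU).1
              rw [if_neg hcon] at this
              exact lt_irrefl _ this
            have h4 : ¬ G.Adj p z := h3 p (mem_insert_of_mem hp) z (mem_insert_self _ _)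
            simp [Matrix.row, SimpleGraph.adjMatrix_apply, h4]
          exact h2 hf
        have h5 := h1 _ (hy y hyU).2
        simp [Matrix.row, SimpleGraph.adjMatrix_apply, hadj] at h5
      have h6 : (U.card : ℝ) ≤ m := by exact_mod_cast hm U hU hst
      by_cases hPs : Stab G P
      · simp [hPs, h6]
      · simp [hPs, hm'.le])
    k
  refine le_trans ?_ h
  refine mul_le_mul_of_nonneg_left ?_ (Nat.cast_nonneg _)
  rw [card_eq_sum_ones, Nat.cast_sum, sum_filter]
  refine sum_le_sum fun Q _ => ?_
  by_cases hQ : Stab G Q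
  · simp [hQ]
  · simp only [hQ, if_false]
    positivity

open Classical in
/-- **The proportion of the samples with a stable set of size `k`.** -/
theorem graph_main {V : Type} [Fintype V] [DecidableEq V] (G : SimpleGraph V)
    [DecidableRel G.Adj] (r : ℕ) (hr : (G.adjMatrix ℝ).rank ≤ r) (W : Finset V) (m : ℕ)
    (hm : ∀ S ⊆ W, Stab G S → S.card ≤ m) (hm0 : 0 < m) (hmW : m ≤ W.card) (k R : ℕ)
    (hk : r ≤ k) :
    k.factorial * ((W.powersetCard R).filter (fun A => ∃ S ⊆ A, S.card = k ∧ Stab G S)).card *
      W.card ^ (k - r) ≤ (2 * R) ^ k * m ^ (k - r) * W.card.choose R := by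
  set n := W.card with hn
  set GG := (W.powersetCard R).filter (fun A => ∃ S ⊆ A, S.card = k ∧ Stab G S) with hGG
  set FF := (W.powersetCard k).filter (fun Q => Stab G Q) with hFF
  by_cases hkR : k ≤ R
  · by_cases hRn : R ≤ n
    · have h1 : GG.card ≤ FF.card * (n - k).choose (R - k) := by
        have hsub : GG ⊆ FF.biUnion (fun Q => (W.powersetCard R).filter (fun A => Q ⊆ A)) := by
          intro A hA
          rw [hGG, mem_filter, mem_powersetCard] at hA
          obtain ⟨⟨hAW, hAc⟩, S, hSA, hSc, hS⟩ := hA
          rw [mem_biUnion]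
          refine ⟨S, ?_, ?_⟩
          · rw [hFF, mem_filter, mem_powersetCard]
            exact ⟨⟨hSA.trans hAW, hSc⟩, hS⟩
          · rw [mem_filter, mem_powersetCard]
            exact ⟨⟨hAW, hAc⟩, hSA⟩
        refine (card_le_card hsub).trans (card_biUnion_le.trans ?_)
        rw [← smul_eq_mul]
        refine sum_le_card_nsmul _ _ _ fun Q hQ => ?_
        rw [hFF, mem_filter, mem_powersetCard] at hQ
        have := card_above W Q hQ.1.1 R
        rw [hQ.1.2] at this
        exact this
      have h2 : n.choose R * R.choose k = n.choose k * (n - k).choose (R - k) :=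
        Nat.choose_mul hkR
      have h3 : GG.card * n.choose k ≤ FF.card * (n.choose R * R.choose k) := by
        calc GG.card * n.choose k ≤ (FF.card * (n - k).choose (R - k)) * n.choose k :=
              Nat.mul_le_mul_right _ h1
          _ = _ := by rw [h2]; ring
      have h4 := choose_mono' R n k hRn
      have h5 := stable_count G r hr W m hm hm0 hmW k
      rw [← hFF, ← hn] at h5
      have hm' : (0 : ℝ) < m := by exact_mod_cast hm0
      have hn0 : 0 < n := by omega
      have hn' : (0 : ℝ) < n := by exact_mod_cast hn0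
      have hck : 0 < n.choose k := Nat.choose_pos (hkR.trans hRn)
      have hck' : (0 : ℝ) < n.choose k := by exact_mod_cast hck
      -- k! |GG| C(n,k) n^k ≤ ...
      have h6 : (k.factorial : ℝ) * GG.card * (n.choose k * n ^ k) ≤
          (2 * (m : ℝ)) ^ k * ((n : ℝ) / m) ^ r * n.choose R * (n.choose k * R ^ k) := by
        have h3' : (GG.card : ℝ) * n.choose k ≤ FF.card * (n.choose R * R.choose k) := by
          exact_mod_cast h3
        have h4' : (R.choose k : ℝ) * n ^ k ≤ n.choose k * R ^ k := by exact_mod_cast h4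
        calc (k.factorial : ℝ) * GG.card * (n.choose k * n ^ k)
            = (k.factorial : ℝ) * n ^ k * (GG.card * n.choose k) := by ring
          _ ≤ (k.factorial : ℝ) * n ^ k * (FF.card * (n.choose R * R.choose k)) :=
              mul_le_mul_of_nonneg_left h3' (by positivity)
          _ = ((k.factorial : ℝ) * FF.card) * (n.choose R * (R.choose k * n ^ k)) := by ring
          _ ≤ ((2 * (m : ℝ)) ^ k * ((n : ℝ) / m) ^ r) * (n.choose R * (R.choose k * n ^ k)) :=
              mul_le_mul_of_nonneg_right h5 (by positivity)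
          _ ≤ ((2 * (m : ℝ)) ^ k * ((n : ℝ) / m) ^ r) * (n.choose R * (n.choose k * R ^ k)) := by
              refine mul_le_mul_of_nonneg_left ?_ (by positivity)
              exact mul_le_mul_of_nonneg_left h4' (by positivity)
          _ = _ := by ring
      have h7 : (2 * (m : ℝ)) ^ k * ((n : ℝ) / m) ^ r * n.choose R * (n.choose k * R ^ k) =
          ((2 * (R : ℝ)) ^ k * m ^ (k - r) * n.choose R) * (n.choose k * n ^ r) := by
        have e : (m : ℝ) ^ k = m ^ (k - r) * m ^ r := by
          rw [← pow_add]
          congr 1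
          omega
        rw [mul_pow, mul_pow, div_pow, e]
        field_simp
      have h8 : (k.factorial : ℝ) * GG.card * (n.choose k * n ^ k) =
          ((k.factorial : ℝ) * GG.card * n ^ (k - r)) * (n.choose k * n ^ r) := by
        have e : (n : ℝ) ^ k = n ^ (k - r) * n ^ r := by
          rw [← pow_add]
          congr 1
          omega
        rw [e]
        ring
      rw [h7, h8] at h6
      have h9 := le_of_mul_le_mul_right h6 (by positivity)
      exact_mod_cast h9
    · have : GG = ∅ := by
        rw [hGG, filter_eq_empty_iff]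
        intro A hA
        rw [mem_powersetCard] at hA
        have := card_le_card hA.1
        omega
      rw [this]
      simp
  · have : GG = ∅ := by
      rw [hGG, filter_eq_empty_iff]
      rintro A hA ⟨S, hSA, hSc, _⟩
      rw [mem_powersetCard] at hA
      have := card_le_card hSA
      omega
    rw [this]
    simp

/-- there is a largest stable set -/
theorem exists_max {V : Type} [DecidableEq V] (G : SimpleGraph V) (W : Finset V) :
    ∃ S ⊆ W, Stab G S ∧ ∀ T ⊆ W, Stab G T → T.card ≤ S.card := by
  classical
  obtain ⟨S, hS, hmax⟩ := exists_max_image (W.powerset.filter (fun S => Stab G S)) card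
    ⟨∅, by
      rw [mem_filter, mem_powerset]
      exact ⟨empty_subset _, fun u hu => absurd hu (notMem_empty _)⟩⟩
  rw [mem_filter, mem_powerset] at hS
  refine ⟨S, hS.1, hS.2, fun T hT hTs => hmax T ?_⟩
  rw [mem_filter, mem_powerset]
  exact ⟨hT, hTs⟩

/-- the exponent: the least `k` with `(t + 1) r ≤ t k` -/
theorem exists_k (r t : ℕ) (ht : 1 ≤ t) (hr : 1 ≤ r) :
    ∃ k, r < k ∧ k ≤ 2 * r ∧ k ≤ (t + 1) * (k - r) ∧
      ∀ s, (t + 1) * r ≤ t * s → k ≤ s := by
  classical
  have hex : ∃ k, (t + 1) * r ≤ t * k := ⟨2 * r, by nlinarith⟩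
  refine ⟨Nat.find hex, ?_, ?_, ?_, fun s hs => Nat.find_min' hex hs⟩
  · by_contra hcon
    push Not at hcon
    have h1 := Nat.find_spec hex
    have h2 : t * Nat.find hex ≤ t * r := Nat.mul_le_mul_left _ hcon
    nlinarith
  · exact Nat.find_min' hex (by nlinarith)
  · have h1 := Nat.find_spec hex
    set k := Nat.find hex
    have h3 : r ≤ k := by
      by_contra hcon
      push Not at hcon
      have h2 : t * k ≤ t * r := Nat.mul_le_mul_left _ hcon.le
      nlinarith
    obtain ⟨e, he⟩ := Nat.exists_eq_add_of_le h3
    rw [he] at h1 ⊢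
    rw [Nat.add_sub_cancel_left]
    nlinarith

/-- **Amplification of stable sets.** -/
theorem graph_amp {V : Type} [Fintype V] [DecidableEq V] (G : SimpleGraph V)
    [DecidableRel G.Adj] (r t R : ℕ) (hr1 : 1 ≤ r) (ht : 1 ≤ t)
    (hr : (G.adjMatrix ℝ).rank ≤ r) (W : Finset V)
    (h : ∀ A ⊆ W, A.card = R → ∃ S ⊆ A, Stab G S ∧ (t + 1) * r ≤ t * S.card) :
    ∃ S ⊆ W, Stab G S ∧ W.card ≤ (2 * R) ^ (t + 1) * S.card := by
  classical
  obtain ⟨k, hrk, hk2, hkt, hks⟩ := exists_k r t ht hr1
  obtain ⟨S, hSW, hS, hmax⟩ := exists_max G W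
  refine ⟨S, hSW, hS, ?_⟩
  by_cases hW : W.Nonempty
  · obtain ⟨w, hw⟩ := hW
    have hS1 : 1 ≤ S.card := by
      have := hmax {w} (by simpa using hw) (by
        intro u hu v hv
        rw [mem_singleton] at hu hv
        rw [hu, hv]
        exact G.loopless.irrefl w)
      rwa [card_singleton] at this
    by_cases hR : R ≤ W.card
    · obtain ⟨A0, hA0, hA0c⟩ := exists_subset_card_eq hR
      have hR1 : 1 ≤ R := by
        obtain ⟨T, hT, _, hTc⟩ := h A0 hA0 hA0c
        have h1 := card_le_card hT
        rw [hA0c] at h1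
        by_contra hcon
        have : T.card = 0 := by omega
        rw [this] at hTc
        nlinarith
      have h2 := graph_main G r hr W S.card hmax hS1 (card_le_card hSW) k R hrk.le
      have h3 : (W.powersetCard R).filter (fun A => ∃ S ⊆ A, S.card = k ∧ Stab G S) =
          W.powersetCard R := by
        refine filter_true_of_mem fun A hA => ?_
        rw [mem_powersetCard] at hA
        obtain ⟨T, hTA, hT, hTc⟩ := h A hA.1 hA.2
        obtain ⟨T', hT', hT'c⟩ := exists_subset_card_eq (hks _ hTc)
        exact ⟨T', hT'.trans hTA, hT'c, hT.sub hT'⟩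
      rw [h3, card_powersetCard] at h2
      have hch : 0 < W.card.choose R := Nat.choose_pos hR
      have h4 : W.card ^ (k - r) ≤ (2 * R) ^ k * S.card ^ (k - r) := by
        have h5 : W.card ^ (k - r) * W.card.choose R ≤
            ((2 * R) ^ k * S.card ^ (k - r)) * W.card.choose R := by
          refine le_trans ?_ h2
          calc W.card ^ (k - r) * W.card.choose R
              = 1 * W.card.choose R * W.card ^ (k - r) := by ring
            _ ≤ k.factorial * W.card.choose R * W.card ^ (k - r) := by
                refine Nat.mul_le_mul_right _ (Nat.mul_le_mul_right _ ?_)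
                exact Nat.factorial_pos k
        exact Nat.le_of_mul_le_mul_right h5 hch
      have h6 : (2 * R) ^ k ≤ (2 * R) ^ ((t + 1) * (k - r)) :=
        Nat.pow_le_pow_right (by omega) hkt
      have h7 : W.card ^ (k - r) ≤ ((2 * R) ^ (t + 1) * S.card) ^ (k - r) := by
        rw [mul_pow, ← pow_mul]
        exact h4.trans (Nat.mul_le_mul_right _ h6)
      exact le_of_pow_le_pow_left₀ (by omega) (Nat.zero_le _) h7
    · push Not at hR
      calc W.card ≤ R := hR.le
        _ ≤ 2 * R := by omega
        _ = (2 * R) ^ 1 := (pow_one _).symm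
        _ ≤ (2 * R) ^ (t + 1) := Nat.pow_le_pow_right (by omega) (by omega)
        _ ≤ (2 * R) ^ (t + 1) * S.card := Nat.le_mul_of_pos_right _ hS1
  · rw [not_nonempty_iff_eq_empty] at hW
    rw [hW]
    simp

end Pool.Agent.R934.LR
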