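import Pool.Agent.R934.LR.Graph
import Pool.Agent.R533.VC.Graph

/-!
Boolean matrices of small rank: samples with monochromatic squares of twice the rank.
-/

set_option autoImplicit false
set_option linter.unusedSectionVars false

namespace Pool.Agent.R934.LR

open Finset Module Pool.Agent.H630R2.LR

/-- monochromatic rectangles -/
def Mono {X Y : Type*} (F : X → Y → Bool) (P : Finset X) (Q : Finset Y) (v : Bool) : Prop :=
  ∀ x ∈ P, ∀ y ∈ Q, F x y = v

theorem Mono.sub {X Y : Type*} {F : X → Y → Bool} {P P' : Finset X} {Q Q' : Finset Y} {v : Bool}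
    (h : Mono F P Q v) (hP : P' ⊆ P) (hQ : Q' ⊆ Q) : Mono F P' Q' v :=
  fun x hx y hy => h x (hP hx) y (hQ hy)

section
variable {X Y : Type*} [Fintype X] [Fintype Y] [DecidableEq X] [DecidableEq Y]

/-- the columns in which the rows of `P` have the value `v` -/
def cl (F : X → Y → Bool) (B : Finset Y) (v : Bool) (P : Finset X) : Finset Y :=
  B.filter (fun y => ∀ x ∈ P, F x y = v)

theorem cl_mono (F : X → Y → Bool) (B : Finset Y) (v : Bool) {P Q : Finset X} (h : P ⊆ Q) :
    cl F B v Q ⊆ cl F B v P := by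
  intro y hy
  rw [cl, mem_filter] at hy ⊢
  exact ⟨hy.1, fun x hx => hy.2 x (h hx)⟩

/-- the weight of the sets of rows -/
theorem rows_weight (F : X → Y → Bool) (r : ℕ) (hr : (comm F).rank ≤ r) (A : Finset X)
    (B : Finset Y) (hB : B.Nonempty) (v : Bool) (q : ℝ) (hq1 : 1 ≤ q)
    (hq : ∀ A' ⊆ A, ∀ B' ⊆ B, Mono F A' B' v →
      q * ((A'.card : ℝ) * B'.card) ≤ (A.card : ℝ) * B.card) (k : ℕ) :
    (k.factorial : ℝ) * ∑ P ∈ A.powersetCard k, ((cl F B v P).card / B.card : ℝ) ^ k ≤
      (2 * ((A.card : ℝ) / q)) ^ k * q ^ r := by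
  have hb0 : (0 : ℝ) < B.card := by exact_mod_cast hB.card_pos
  have hq0 : 0 < q := by linarith
  have hspan : finrank ℝ (Submodule.span ℝ ((fun x : X => (comm F).row x) '' (A : Set X))) ≤ r := by
    refine le_trans ?_ hr
    rw [Matrix.rank_eq_finrank_span_row]
    have : FiniteDimensional ℝ (Submodule.span ℝ (Set.range (comm F).row)) :=
      FiniteDimensional.span_of_finite ℝ (Set.finite_range _)
    refine Submodule.finrank_mono (Submodule.span_mono ?_)
    rintro _ ⟨u, _, rfl⟩
    exact ⟨u, rfl⟩
  refine count_weight_k (K := ℝ) (fun x : X => (comm F).row x) A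
    (fun P => ((cl F B v P).card / B.card : ℝ)) (fun P => by positivity)
    (fun P => ?_) (fun P Q hPQ => ?_) r hspan ((A.card : ℝ) / q) q (by positivity) hq1
    (le_of_eq (by rw [div_mul_cancel₀ _ hq0.ne'])) (fun P hP U hU hy => ?_) k
  · rw [div_le_one hb0]
    exact_mod_cast card_le_card (filter_subset _ _)
  · exact div_le_div_of_nonneg_right (by exact_mod_cast card_le_card (cl_mono F B v hPQ)) hb0.le
  · have hmono : Mono F U (cl F B v P) v := by
      intro y hyU z hz
      have h1 : ∀ f ∈ Submodule.span ℝ ((fun x : X => (comm F).row x) '' (P : Set X)),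
          ∀ z₁ ∈ cl F B v P, ∀ z₂ ∈ cl F B v P, f z₁ = f z₂ := by
        intro f hf z₁ hz₁ z₂ hz₂
        have h2 : Submodule.span ℝ ((fun x : X => (comm F).row x) '' (P : Set X)) ≤
            LinearMap.ker ((LinearMap.proj z₁ : (Y → ℝ) →ₗ[ℝ] ℝ) -
              (LinearMap.proj z₂ : (Y → ℝ) →ₗ[ℝ] ℝ)) := by
          rw [Submodule.span_le]
          rintro _ ⟨p, hp, rfl⟩
          rw [cl, mem_filter] at hz₁ hz₂
          have e1 := hz₁.2 p hp
          have e2 := hz₂.2 p hp
          have e3 : (Pool.Agent.H630R2.LR.comm F) p z₁ = (Pool.Agent.H630R2.LR.comm F) p z₂ := by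
            show (if F p z₁ then (1 : ℝ) else 0) = if F p z₂ then (1 : ℝ) else 0
            rw [e1, e2]
          simp [Matrix.row, e3]
        have h3 := h2 hf
        rw [LinearMap.mem_ker, LinearMap.sub_apply, LinearMap.proj_apply, LinearMap.proj_apply,
          sub_eq_zero] at h3
        exact h3
      obtain ⟨hpos, hspan'⟩ := hy y hyU
      have hne : (cl F B v (insert y P)).Nonempty := by
        rw [← card_pos]
        by_contra hcon
        have h0 : (cl F B v (insert y P)).card = 0 := by omega
        rw [h0] at hpos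
        simp at hpos
      obtain ⟨z0, hz0⟩ := hne
      have hz0' : z0 ∈ cl F B v P := cl_mono F B v (subset_insert _ _) hz0
      have h4 := h1 _ hspan' z hz z0 hz0'
      rw [cl, mem_filter] at hz0
      have h5 : F y z0 = v := hz0.2 y (mem_insert_self _ _)
      have h6 : (if F y z then (1 : ℝ) else 0) = if F y z0 then (1 : ℝ) else 0 := h4
      rw [h5] at h6
      cases h7 : F y z <;> cases v <;> simp_all
    have h8 := hq U hU (cl F B v P) (filter_subset _ _) hmono
    rw [mul_div_assoc', div_le_iff₀ hb0, div_mul_eq_mul_div, le_div_iff₀ hq0]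
    linarith

open Classical in
/-- the number of the monochromatic squares -/
theorem squares_count (F : X → Y → Bool) (r : ℕ) (hr : (comm F).rank ≤ r) (A : Finset X)
    (B : Finset Y) (hB : B.Nonempty) (v : Bool) (q : ℝ) (hq1 : 1 ≤ q)
    (hq : ∀ A' ⊆ A, ∀ B' ⊆ B, Mono F A' B' v →
      q * ((A'.card : ℝ) * B'.card) ≤ (A.card : ℝ) * B.card) (k : ℕ) :
    (k.factorial : ℝ) * (((A.powersetCard k) ×ˢ (B.powersetCard k)).filter
      (fun p => Mono F p.1 p.2 v)).card ≤
      B.card.choose k * ((2 * ((A.card : ℝ) / q)) ^ k * q ^ r) := by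
  have hb0 : (0 : ℝ) < B.card := by exact_mod_cast hB.card_pos
  have h1 : ((((A.powersetCard k) ×ˢ (B.powersetCard k)).filter
      (fun p => Mono F p.1 p.2 v)).card : ℝ) ≤
      ∑ P ∈ A.powersetCard k, ((cl F B v P).card.choose k : ℝ) := by
    rw [card_filter, sum_product, Nat.cast_sum]
    refine sum_le_sum fun P _ => ?_
    rw [← card_filter, ← card_powersetCard]
    have : (B.powersetCard k).filter (fun Q => Mono F P Q v) ⊆ (cl F B v P).powersetCard k := by
      intro Q hQ
      rw [mem_filter, mem_powersetCard] at hQ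
      rw [mem_powersetCard]
      refine ⟨fun y hy => ?_, hQ.1.2⟩
      rw [cl, mem_filter]
      exact ⟨hQ.1.1 hy, fun x hx => hQ.2 x hx y hy⟩
    exact_mod_cast card_le_card this
  have h2 : ∀ P ∈ A.powersetCard k, ((cl F B v P).card.choose k : ℝ) ≤
      B.card.choose k * ((cl F B v P).card / B.card : ℝ) ^ k := by
    intro P _
    have h3 := choose_mono' (cl F B v P).card B.card k (card_le_card (filter_subset _ _))
    have h3' : ((cl F B v P).card.choose k : ℝ) * (B.card : ℝ) ^ k ≤
        B.card.choose k * ((cl F B v P).card : ℝ) ^ k := by exact_mod_cast h3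
    rw [div_pow, mul_div_assoc', le_div_iff₀ (by positivity)]
    exact h3'
  have h4 := rows_weight F r hr A B hB v q hq1 hq k
  calc (k.factorial : ℝ) * (((A.powersetCard k) ×ˢ (B.powersetCard k)).filter
      (fun p => Mono F p.1 p.2 v)).card
      ≤ (k.factorial : ℝ) * ∑ P ∈ A.powersetCard k,
        (B.card.choose k * ((cl F B v P).card / B.card : ℝ) ^ k) :=
        mul_le_mul_of_nonneg_left (h1.trans (sum_le_sum h2)) (Nat.cast_nonneg _)
    _ = B.card.choose k * ((k.factorial : ℝ) * ∑ P ∈ A.powersetCard k,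
        ((cl F B v P).card / B.card : ℝ) ^ k) := by
        rw [← mul_sum]
        ring
    _ ≤ _ := mul_le_mul_of_nonneg_left h4 (Nat.cast_nonneg _)

open Classical in
/-- The pairs of samples of size `R` with a monochromatic square of size `k`. -/
noncomputable def withSquare (F : X → Y → Bool) (A : Finset X) (B : Finset Y) (k R : ℕ) :
    Finset (Finset X × Finset Y) :=
  ((A.powersetCard R) ×ˢ (B.powersetCard R)).filter (fun p => ∃ P ⊆ p.1, ∃ Q ⊆ p.2,
    P.card = k ∧ Q.card = k ∧ ∃ v, Mono F P Q v)

open Classical in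
/-- **The proportion of the pairs of samples with a monochromatic square of size `k`.** -/
theorem mat_main (F : X → Y → Bool) (r : ℕ) (hr : (comm F).rank ≤ r) (A : Finset X)
    (B : Finset Y) (hA : A.Nonempty) (hB : B.Nonempty) (q : ℝ) (hq1 : 1 ≤ q)
    (hq : ∀ A' ⊆ A, ∀ B' ⊆ B, ∀ v, Mono F A' B' v →
      q * ((A'.card : ℝ) * B'.card) ≤ (A.card : ℝ) * B.card) (k R : ℕ) (hk : r ≤ k) :
    (k.factorial : ℝ) ^ 2 * (withSquare F A B k R).card * q ^ (k - r) ≤
      2 * (2 * (R : ℝ) ^ 2) ^ k * (A.card.choose R * B.card.choose R) := by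
  set a := A.card with ha
  set b := B.card with hb
  set GG := withSquare F A B k R with hGG
  have hq0 : 0 < q := by linarith
  by_cases hcase : k ≤ R ∧ R ≤ a ∧ R ≤ b
  · obtain ⟨hkR, hRa, hRb⟩ := hcase
    set MM : Bool → Finset (Finset X × Finset Y) := fun v =>
      ((A.powersetCard k) ×ˢ (B.powersetCard k)).filter (fun p => Mono F p.1 p.2 v) with hMM
    have h1 : GG.card ≤ ((MM true).card + (MM false).card) *
        ((a - k).choose (R - k) * (b - k).choose (R - k)) := by
      have hsub : GG ⊆ (MM true ∪ MM false).biUnion (fun p =>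
          ((A.powersetCard R).filter (fun A' => p.1 ⊆ A')) ×ˢ
          ((B.powersetCard R).filter (fun B' => p.2 ⊆ B'))) := by
        intro p hp
        rw [hGG, withSquare, mem_filter, mem_product] at hp
        obtain ⟨⟨hp1, hp2⟩, P, hP, Q, hQ, hPc, hQc, v, hv⟩ := hp
        rw [mem_biUnion]
        refine ⟨(P, Q), ?_, ?_⟩
        · have hmem : ∀ v, Mono F P Q v → (P, Q) ∈ MM v := by
            intro v hv
            rw [hMM]
            simp only
            rw [mem_filter, mem_product, mem_powersetCard, mem_powersetCard]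
            rw [mem_powersetCard] at hp1 hp2
            exact ⟨⟨⟨hP.trans hp1.1, hPc⟩, ⟨hQ.trans hp2.1, hQc⟩⟩, hv⟩
          rw [mem_union]
          cases v
          · exact Or.inr (hmem _ hv)
          · exact Or.inl (hmem _ hv)
        · rw [mem_product, mem_filter, mem_filter]
          exact ⟨⟨hp1, hP⟩, ⟨hp2, hQ⟩⟩
      refine (card_le_card hsub).trans (card_biUnion_le.trans ?_)
      refine (sum_le_card_nsmul _ _ ((a - k).choose (R - k) * (b - k).choose (R - k))
        fun p hp => ?_).trans ?_
      · have hp' : p.1 ⊆ A ∧ p.1.card = k ∧ p.2 ⊆ B ∧ p.2.card = k := by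
          rw [mem_union, hMM] at hp
          simp only at hp
          rw [mem_filter, mem_filter, mem_product, mem_powersetCard, mem_powersetCard] at hp
          rcases hp with hp | hp
          · exact ⟨hp.1.1.1, hp.1.1.2, hp.1.2.1, hp.1.2.2⟩
          · exact ⟨hp.1.1.1, hp.1.1.2, hp.1.2.1, hp.1.2.2⟩
        rw [card_product]
        have e1 := card_above A p.1 hp'.1 R
        have e2 := card_above B p.2 hp'.2.2.1 R
        rw [hp'.2.1] at e1
        rw [hp'.2.2.2] at e2
        exact Nat.mul_le_mul e1 e2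
      · rw [smul_eq_mul]
        exact Nat.mul_le_mul_right _ (card_union_le _ _)
    have e1 : a.choose R * R.choose k = a.choose k * (a - k).choose (R - k) := Nat.choose_mul hkR
    have e2 : b.choose R * R.choose k = b.choose k * (b - k).choose (R - k) := Nat.choose_mul hkR
    set M := (MM true).card + (MM false).card with hM
    have h2 : GG.card * (a.choose k * b.choose k) ≤
        M * ((a.choose R * R.choose k) * (b.choose R * R.choose k)) := by
      calc GG.card * (a.choose k * b.choose k)
          ≤ (M * ((a - k).choose (R - k) * (b - k).choose (R - k))) *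
            (a.choose k * b.choose k) := Nat.mul_le_mul_right _ h1
        _ = _ := by rw [e1, e2]; ring
    have h3 : ∀ v, (k.factorial : ℝ) * (MM v).card ≤
        b.choose k * ((2 * ((a : ℝ) / q)) ^ k * q ^ r) := by
      intro v
      exact squares_count F r hr A B hB v q hq1 (fun A' hA' B' hB' h => hq A' hA' B' hB' v h) k
    have h4 : (k.factorial : ℝ) * M ≤ 2 * (b.choose k * ((2 * ((a : ℝ) / q)) ^ k * q ^ r)) := by
      rw [hM]
      push_cast
      have := h3 true
      have := h3 false
      linarith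
    have ha0 : (0 : ℝ) < a := by exact_mod_cast hA.card_pos
    have hcb : (0 : ℝ) < b.choose k := by exact_mod_cast Nat.choose_pos (hkR.trans hRb)
    have hcR : (0 : ℝ) < R.choose k := by exact_mod_cast Nat.choose_pos hkR
    have h2' : (GG.card : ℝ) * (a.choose k * b.choose k) ≤
        M * ((a.choose R * R.choose k) * (b.choose R * R.choose k)) := by exact_mod_cast h2
    have h5 : (R.choose k : ℝ) * (a : ℝ) ^ k ≤ a.choose k * (R : ℝ) ^ k := by
      exact_mod_cast choose_mono' R a k hRa
    have h6 : (k.factorial : ℝ) * R.choose k ≤ (R : ℝ) ^ k := by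
      have := Nat.descFactorial_le_pow R k
      rw [Nat.descFactorial_eq_factorial_mul_choose] at this
      exact_mod_cast this
    have hf0 : (0 : ℝ) < k.factorial := by exact_mod_cast Nat.factorial_pos k
    set Z := (2 * ((a : ℝ) / q)) ^ k * q ^ r with hZ
    have hZ0 : 0 ≤ Z := by positivity
    set N := (a.choose R : ℝ) * b.choose R with hN
    -- cancel `b.choose k`
    have h7 : (k.factorial : ℝ) * GG.card * a.choose k ≤ 2 * Z * N * (R.choose k : ℝ) ^ 2 := by
      have h8 : ((k.factorial : ℝ) * GG.card * a.choose k) * b.choose k ≤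
          (2 * Z * N * (R.choose k : ℝ) ^ 2) * b.choose k := by
        calc ((k.factorial : ℝ) * GG.card * a.choose k) * b.choose k
            = (k.factorial : ℝ) * ((GG.card : ℝ) * (a.choose k * b.choose k)) := by ring
          _ ≤ (k.factorial : ℝ) *
              (M * ((a.choose R * R.choose k) * (b.choose R * R.choose k))) :=
              mul_le_mul_of_nonneg_left h2' hf0.le
          _ = ((k.factorial : ℝ) * M) * (N * (R.choose k : ℝ) ^ 2) := by rw [hN]; ring
          _ ≤ (2 * (b.choose k * Z)) * (N * (R.choose k : ℝ) ^ 2) :=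
              mul_le_mul_of_nonneg_right h4 (by positivity)
          _ = _ := by ring
      exact le_of_mul_le_mul_right h8 hcb
    have h9 : (k.factorial : ℝ) * GG.card * (a : ℝ) ^ k ≤
        2 * Z * N * (R.choose k : ℝ) * (R : ℝ) ^ k := by
      have h10 : ((k.factorial : ℝ) * GG.card * (a : ℝ) ^ k) * R.choose k ≤
          (2 * Z * N * (R.choose k : ℝ) * (R : ℝ) ^ k) * R.choose k := by
        calc ((k.factorial : ℝ) * GG.card * (a : ℝ) ^ k) * R.choose k
            = ((k.factorial : ℝ) * GG.card) * (R.choose k * (a : ℝ) ^ k) := by ring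
          _ ≤ ((k.factorial : ℝ) * GG.card) * (a.choose k * (R : ℝ) ^ k) :=
              mul_le_mul_of_nonneg_left h5 (by positivity)
          _ = ((k.factorial : ℝ) * GG.card * a.choose k) * (R : ℝ) ^ k := by ring
          _ ≤ (2 * Z * N * (R.choose k : ℝ) ^ 2) * (R : ℝ) ^ k :=
              mul_le_mul_of_nonneg_right h7 (by positivity)
          _ = _ := by ring
      exact le_of_mul_le_mul_right h10 hcR
    have h11 : (k.factorial : ℝ) ^ 2 * GG.card * (a : ℝ) ^ k ≤
        2 * Z * N * ((R : ℝ) ^ k * (R : ℝ) ^ k) := by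
      calc (k.factorial : ℝ) ^ 2 * GG.card * (a : ℝ) ^ k
          = (k.factorial : ℝ) * ((k.factorial : ℝ) * GG.card * (a : ℝ) ^ k) := by ring
        _ ≤ (k.factorial : ℝ) * (2 * Z * N * (R.choose k : ℝ) * (R : ℝ) ^ k) :=
            mul_le_mul_of_nonneg_left h9 hf0.le
        _ = (2 * Z * N * (R : ℝ) ^ k) * ((k.factorial : ℝ) * R.choose k) := by ring
        _ ≤ (2 * Z * N * (R : ℝ) ^ k) * (R : ℝ) ^ k :=
            mul_le_mul_of_nonneg_left h6 (by positivity)
        _ = _ := by ring
    -- the powers of `q`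
    have h12 : Z * q ^ (k - r) = (2 * (a : ℝ)) ^ k := by
      have e : (q : ℝ) ^ r * q ^ (k - r) = q ^ k := by
        rw [← pow_add]
        congr 1
        omega
      rw [hZ, mul_assoc, e, ← mul_pow]
      congr 1
      field_simp
    have h13 : ((k.factorial : ℝ) ^ 2 * GG.card * q ^ (k - r)) * (a : ℝ) ^ k ≤
        (2 * (2 * (R : ℝ) ^ 2) ^ k * N) * (a : ℝ) ^ k := by
      calc ((k.factorial : ℝ) ^ 2 * GG.card * q ^ (k - r)) * (a : ℝ) ^ k
          = ((k.factorial : ℝ) ^ 2 * GG.card * (a : ℝ) ^ k) * q ^ (k - r) := by ring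
        _ ≤ (2 * Z * N * ((R : ℝ) ^ k * (R : ℝ) ^ k)) * q ^ (k - r) :=
            mul_le_mul_of_nonneg_right h11 (by positivity)
        _ = 2 * (Z * q ^ (k - r)) * N * ((R : ℝ) ^ k * (R : ℝ) ^ k) := by ring
        _ = _ := by
            rw [h12, mul_pow, mul_pow, ← pow_mul]
            ring
    exact le_of_mul_le_mul_right h13 (by positivity)
  · have hempty : GG = ∅ := by
      rw [hGG, withSquare, filter_eq_empty_iff]
      rintro p hp ⟨P, hP, Q, hQ, hPc, hQc, _⟩
      rw [mem_product, mem_powersetCard, mem_powersetCard] at hp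
      apply hcase
      have e1 := card_le_card hP
      have e2 := card_le_card hp.1.1
      have e3 := card_le_card hp.2.1
      refine ⟨?_, ?_, ?_⟩ <;> omega
    rw [hempty, card_empty, Nat.cast_zero, mul_zero, zero_mul]
    positivity

/-- **Amplification of monochromatic squares.** -/
theorem mat_rich (F : X → Y → Bool) (r t R : ℕ) (hr1 : 1 ≤ r) (ht : 1 ≤ t) (hR : 1 ≤ R)
    (hr : (comm F).rank ≤ r)
    (h : ∀ (A : Finset X) (B : Finset Y), A.card = R → B.card = R →
      ∃ P ⊆ A, ∃ Q ⊆ B, ∃ v, Mono F P Q v ∧ (t + 1) * r ≤ t * P.card ∧ (t + 1) * r ≤ t * Q.card) :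
    Pool.Agent.R533.VC.Rich F ((2 * R ^ 2) ^ (t + 1)) := by
  classical
  obtain ⟨k, hrk, hk2, hkt, hks⟩ := exists_k r t ht hr1
  intro A B hA hB
  by_contra hcon
  push Not at hcon
  set q := (2 * R ^ 2) ^ (t + 1) with hq
  have hR2 : 1 ≤ R ^ 2 := Nat.one_le_pow _ _ hR
  have hq1 : 1 ≤ q := Nat.one_le_pow _ _ (by omega)
  have hqR : 2 * R ≤ q := by
    calc 2 * R = 2 * (R * 1) := by ring
      _ ≤ 2 * (R * R) := by
        refine Nat.mul_le_mul_left _ (Nat.mul_le_mul_left _ hR)
      _ = (2 * R ^ 2) ^ 1 := by ring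
      _ ≤ _ := Nat.pow_le_pow_right (by omega) (by omega)
  have hno : ∀ A' ⊆ A, ∀ B' ⊆ B, ∀ v, Mono F A' B' v →
      q * (A'.card * B'.card) < A.card * B.card :=
    fun A' hA' B' hB' v hv => hcon A' hA' B' hB' v hv
  by_cases hRA : R ≤ A.card
  · by_cases hRB : R ≤ B.card
    · have h1 := mat_main F r hr A B hA hB (q : ℝ) (by exact_mod_cast hq1)
        (fun A' hA' B' hB' v hv => by exact_mod_cast (hno A' hA' B' hB' v hv).le) k R hrk.le
      have h2 : withSquare F A B k R = (A.powersetCard R) ×ˢ (B.powersetCard R) := by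
        refine filter_true_of_mem fun p hp => ?_
        rw [mem_product, mem_powersetCard, mem_powersetCard] at hp
        obtain ⟨P, hP, Q, hQ, v, hv, hPc, hQc⟩ := h p.1 p.2 hp.1.2 hp.2.2
        obtain ⟨P', hP', hP'c⟩ := exists_subset_card_eq (hks _ hPc)
        obtain ⟨Q', hQ', hQ'c⟩ := exists_subset_card_eq (hks _ hQc)
        exact ⟨P', hP'.trans hP, Q', hQ'.trans hQ, hP'c, hQ'c, v, hv.sub hP' hQ'⟩
      rw [h2, card_product, card_powersetCard, card_powersetCard] at h1
      have hN : (0 : ℝ) < (A.card.choose R : ℝ) * B.card.choose R := by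
        have e1 : 0 < A.card.choose R := Nat.choose_pos hRA
        have e2 : 0 < B.card.choose R := Nat.choose_pos hRB
        have e1' : (0 : ℝ) < A.card.choose R := by exact_mod_cast e1
        have e2' : (0 : ℝ) < B.card.choose R := by exact_mod_cast e2
        positivity
      have h3 : (k.factorial : ℝ) ^ 2 * (q : ℝ) ^ (k - r) ≤ 2 * (2 * (R : ℝ) ^ 2) ^ k := by
        have h4 : ((k.factorial : ℝ) ^ 2 * (q : ℝ) ^ (k - r)) *
            ((A.card.choose R : ℝ) * B.card.choose R) ≤
            (2 * (2 * (R : ℝ) ^ 2) ^ k) * ((A.card.choose R : ℝ) * B.card.choose R) := by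
          refine le_trans (le_of_eq ?_) h1
          push_cast
          ring
        exact le_of_mul_le_mul_right h4 hN
      have h5 : ((2 * (R : ℝ) ^ 2)) ^ k ≤ (q : ℝ) ^ (k - r) := by
        have h6 : (2 * R ^ 2) ^ k ≤ q ^ (k - r) := by
          rw [hq, ← pow_mul]
          exact Nat.pow_le_pow_right (by omega) hkt
        exact_mod_cast h6
      have h7 : (2 : ℝ) ≤ k.factorial := by
        have : 2 ≤ k.factorial := by
          have h8 : Nat.factorial 2 ≤ k.factorial := Nat.factorial_le (by omega)
          simpa using h8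
        exact_mod_cast this
      have h9 : (0 : ℝ) < (2 * (R : ℝ) ^ 2) ^ k := by
        have : (0 : ℝ) < R := by exact_mod_cast hR
        positivity
      nlinarith [mul_le_mul h7 h7 (by norm_num) (by positivity : (0 : ℝ) ≤ k.factorial)]
    · push Not at hRB
      obtain ⟨y, hy⟩ := hB
      -- one column
      have h1 : (A.filter (fun x => F x y = true)).card + (A.filter (fun x => F x y = false)).card
          = A.card := by
        rw [← card_filter_add_card_filter_not (s := A) (fun x => F x y = true)]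
        congr 2
        ext x
        simp
      have h2 := hno (A.filter (fun x => F x y = true)) (filter_subset _ _) {y}
        (by simpa using hy) true (by
          intro x hx z hz
          rw [mem_singleton] at hz
          rw [mem_filter] at hx
          rw [hz]
          exact hx.2)
      have h3 := hno (A.filter (fun x => F x y = false)) (filter_subset _ _) {y}
        (by simpa using hy) false (by
          intro x hx z hz
          rw [mem_singleton] at hz
          rw [mem_filter] at hx
          rw [hz]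
          exact hx.2)
      rw [card_singleton, mul_one] at h2 h3
      have h4 : q * A.card < 2 * (A.card * B.card) := by
        rw [← h1, Nat.mul_add, h1]
        omega
      have h5 : 2 * (A.card * B.card) ≤ q * A.card := by
        calc 2 * (A.card * B.card) = (2 * B.card) * A.card := by ring
          _ ≤ (2 * R) * A.card := Nat.mul_le_mul_right _ (by omega)
          _ ≤ _ := Nat.mul_le_mul_right _ hqR
      omega
  · push Not at hRA
    obtain ⟨x, hx⟩ := hA
    have h1 : (B.filter (fun y => F x y = true)).card + (B.filter (fun y => F x y = false)).card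
        = B.card := by
      rw [← card_filter_add_card_filter_not (s := B) (fun y => F x y = true)]
      congr 2
      ext y
      simp
    have h2 := hno {x} (by simpa using hx) (B.filter (fun y => F x y = true)) (filter_subset _ _)
      true (by
        intro z hz y hy
        rw [mem_singleton] at hz
        rw [mem_filter] at hy
        rw [hz]
        exact hy.2)
    have h3 := hno {x} (by simpa using hx) (B.filter (fun y => F x y = false)) (filter_subset _ _)
      false (by
        intro z hz y hy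
        rw [mem_singleton] at hz
        rw [mem_filter] at hy
        rw [hz]
        exact hy.2)
    rw [card_singleton, one_mul] at h2 h3
    have h4 : q * B.card < 2 * (A.card * B.card) := by
      rw [← h1, Nat.mul_add, h1]
      omega
    have h5 : 2 * (A.card * B.card) ≤ q * B.card := by
      calc 2 * (A.card * B.card) = (2 * A.card) * B.card := by ring
        _ ≤ (2 * R) * B.card := Nat.mul_le_mul_right _ (by omega)
        _ ≤ _ := Nat.mul_le_mul_right _ hqR
    omega

/-- the protocol -/
theorem mat_proto (F : X → Y → Bool) (r t R : ℕ) (hr1 : 1 ≤ r) (ht : 1 ≤ t) (hR : 1 ≤ R)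
    (hr : (comm F).rank ≤ r)
    (h : ∀ (A : Finset X) (B : Finset Y), A.card = R → B.card = R →
      ∃ P ⊆ A, ∃ Q ⊆ B, ∃ v, Mono F P Q v ∧ (t + 1) * r ≤ t * P.card ∧ (t + 1) * r ≤ t * Q.card) :
    Proto F (2 * ((t + 1) * (1 + 2 * Nat.clog 2 R) + Nat.clog 2 (r + 1) + 1) *
      Nat.clog 2 (comm F).rank + 2) := by
  have hR2 : 1 ≤ R ^ 2 := Nat.one_le_pow _ _ hR
  have hq1 : 1 ≤ (2 * R ^ 2) ^ (t + 1) := Nat.one_le_pow _ _ (by omega)
  refine Pool.Agent.R533.VC.nw F _ hq1 (mat_rich F r t R hr1 ht hR hr h) _ ?_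
  have h1 : R ≤ 2 ^ Nat.clog 2 R := Nat.le_pow_clog (by norm_num) _
  have h2 : r + 1 ≤ 2 ^ Nat.clog 2 (r + 1) := Nat.le_pow_clog (by norm_num) _
  have h3 : (2 * R ^ 2) ^ (t + 1) ≤ 2 ^ ((t + 1) * (1 + 2 * Nat.clog 2 R)) := by
    calc (2 * R ^ 2) ^ (t + 1) ≤ (2 * (2 ^ Nat.clog 2 R) ^ 2) ^ (t + 1) :=
          Nat.pow_le_pow_left (Nat.mul_le_mul_left _ (Nat.pow_le_pow_left h1 2)) _
      _ = 2 ^ ((t + 1) * (1 + 2 * Nat.clog 2 R)) := by
          rw [← pow_mul, ← pow_succ', ← pow_mul]
          congr 1
          ring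
  calc 2 * (comm F).rank * (2 * R ^ 2) ^ (t + 1) + 2
      ≤ 2 * r * (2 * R ^ 2) ^ (t + 1) + 2 * (2 * R ^ 2) ^ (t + 1) := by
        refine Nat.add_le_add (Nat.mul_le_mul_right _ (Nat.mul_le_mul_left _ hr)) (by omega)
    _ = 2 * ((2 * R ^ 2) ^ (t + 1) * (r + 1)) := by ring
    _ ≤ 2 * (2 ^ ((t + 1) * (1 + 2 * Nat.clog 2 R)) * 2 ^ Nat.clog 2 (r + 1)) :=
        Nat.mul_le_mul_left _ (Nat.mul_le_mul h3 h2)
    _ = _ := by
        rw [← pow_add, ← pow_succ']

end

/-- a protocol gives a large monochromatic rectangle -/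
theorem rect_of_proto {X Y : Type*} [Fintype X] [Fintype Y] (F : X → Y → Bool) (c : ℕ)
    (h : Proto F c) : ∃ (A : Finset X) (B : Finset Y) (v : Bool), Mono F A B v ∧
      Fintype.card X * Fintype.card Y ≤ 2 ^ c * (A.card * B.card) := by
  classical
  obtain ⟨owner, a, b, out, hout⟩ := h
  by_cases hne : Nonempty (X × Y)
  · let g : X × Y → List.Vector Bool c := fun p =>
      ⟨Pool.Agent.R533.VC.tr owner a b p.1 p.2 c, Pool.Agent.R533.VC.tr_length owner a b p.1 p.2 c⟩
    obtain ⟨z, -, hz⟩ := exists_max_image (univ : Finset (List.Vector Bool c))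
      (fun z => (univ.filter (fun p => g p = z)).card) ⟨g hne.some, mem_univ _⟩
    set E := univ.filter (fun p : X × Y => g p = z) with hE
    have hE1 : Fintype.card X * Fintype.card Y ≤ 2 ^ c * E.card := by
      rw [← Fintype.card_prod, ← card_univ, card_eq_sum_card_fiberwise (f := g)
        (t := (univ : Finset (List.Vector Bool c))) (fun _ _ => mem_coe.mpr (mem_univ _))]
      refine (sum_le_card_nsmul _ _ E.card (fun z' hz' => hz z' hz')).trans (le_of_eq ?_)
      rw [smul_eq_mul, card_univ, card_vector, Fintype.card_bool]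
    have hg : ∀ p : X × Y, g p = z → Pool.Agent.R533.VC.tr owner a b p.1 p.2 c = z.1 := by
      intro p hp
      rw [← hp]
    refine ⟨E.image Prod.fst, E.image Prod.snd, out z.1, ?_, ?_⟩
    · intro x hx y hy
      rw [mem_image] at hx hy
      obtain ⟨⟨x1, y1⟩, hp, rfl⟩ := hx
      obtain ⟨⟨x2, y2⟩, hp', rfl⟩ := hy
      rw [hE, mem_filter] at hp hp'
      have e1 := hg _ hp.2
      have e2 := hg _ hp'.2
      have e3 := Pool.Agent.R533.VC.tr_rect owner a b x1 x2 y1 y2 c (e1.trans e2.symm)
      have e4 := hout x1 y2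
      change out (Pool.Agent.R533.VC.tr owner a b x1 y2 c) = _ at e4
      rw [e3] at e4
      rw [← e4]
      exact congrArg out e1
    · refine hE1.trans (Nat.mul_le_mul_left _ ?_)
      rw [← card_product]
      refine card_le_card fun p hp => ?_
      rw [mem_product]
      exact ⟨mem_image_of_mem _ hp, mem_image_of_mem _ hp⟩
  · refine ⟨∅, ∅, true, fun x hx => absurd hx (notMem_empty _), ?_⟩
    have : IsEmpty (X × Y) := not_nonempty_iff.mp hne
    rw [← Fintype.card_prod, Fintype.card_eq_zero]
    exact Nat.zero_le _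

end Pool.Agent.R934.LR
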